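import Mathlib

set_option autoImplicit false

/-!
# Koebe polyhedra: definitions

All notions are those of the problem file: convex polyhedra in 3-space, their faces (Mathlib: `IsExposed`, the
empty set and the polyhedron itself included), the combinatorial class (isomorphic face lattices), edges (faces of
dimension one), polyhedra midscribed to the unit sphere, and the center of mass of the solid.
-/

namespace Pool.Agent.Helper65.KP

open MeasureTheory

/-- Euclidean 3-space. -/
abbrev E3 : Type := EuclideanSpace ℝ (Fin 3)

/-- Convex polyhedron: the convex hull of finitely many points, with nonempty interior. -/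
def IsPolyhedron (P : Set E3) : Prop :=
  (∃ S : Set E3, S.Finite ∧ P = convexHull ℝ S) ∧ (interior P).Nonempty

/-- The set of the faces of `P` (the empty face and `P` itself included), ordered by inclusion. A face is the
set of the points of `P` at which some linear functional attains its maximum over `P`, or the empty set. -/
abbrev FaceLattice (P : Set E3) : Type := {F : Set E3 // IsExposed ℝ P F}

/-- `P` and `Q` belong to the same combinatorial class: their face lattices are isomorphic. -/
def SameClass (P Q : Set E3) : Prop := Nonempty (FaceLattice P ≃o FaceLattice Q)

/-- Edge: a face of dimension one. -/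
def IsEdge (P F : Set E3) : Prop :=
  IsExposed ℝ P F ∧ Module.finrank ℝ (vectorSpan ℝ F) = 1

/-- The edge `F` is tangent to the unit sphere: `F` contains a point of the sphere, and the line through `F`
contains no point of the open unit ball. -/
def IsTangent (F : Set E3) : Prop :=
  (∃ p ∈ F, ‖p‖ = 1) ∧ ∀ q ∈ affineSpan ℝ F, 1 ≤ ‖q‖

/-- Koebe polyhedron: a convex polyhedron all whose edges are tangent to the unit sphere. -/
def IsKoebe (P : Set E3) : Prop :=
  IsPolyhedron P ∧ ∀ F, IsEdge P F → IsTangent F

/-- The center of mass of the solid `P`. -/
noncomputable def cm3 (P : Set E3) : E3 := (volume.real P)⁻¹ • ∫ x in P, x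

/-- The square pyramid with apex `(0, 0, √2)` and base vertices `(± √2, 0, 0)`, `(0, ± √2, 0)`. -/
noncomputable def pyramid : Set E3 :=
  convexHull ℝ {!₂[0, 0, √2], !₂[√2, 0, 0], !₂[0, √2, 0], !₂[-√2, 0, 0], !₂[0, -√2, 0]}

end Pool.Agent.Helper65.KP
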