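import Mathlib
import Pool.Agent.Helper65.KP.Defs
import Pool.Agent.Helper53.KoebeMain

set_option autoImplicit false

namespace Pool.Agent.Helper65.KP

open Set Pool.Agent.Helper53.Koebe

/-! ### vertices of a polytope are exposed -/

theorem isExposed_vertex {S : Set E3} (hS : S.Finite) {v : E3}
    (hv : v ∈ extremePoints ℝ (convexHull ℝ S)) : IsExposed ℝ (convexHull ℝ S) {v} := by
  have hvS : v ∈ S := extremePoints_convexHull_subset hv
  have hnot : v ∉ convexHull ℝ (S \ {v}) := by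
    intro hc
    have h1 : v ∈ extremePoints ℝ (convexHull ℝ (S \ {v})) :=
      inter_extremePoints_subset_extremePoints_of_subset
        (convexHull_mono sdiff_subset) ⟨hc, hv⟩
    exact (extremePoints_convexHull_subset h1).2 rfl
  obtain ⟨l, u, hl1, hl2⟩ := geometric_hahn_banach_closed_point (convex_convexHull ℝ (S \ {v}))
    ((hS.subset sdiff_subset).isCompact_convexHull ℝ).isClosed hnot
  have hlt : ∀ q ∈ S, q ≠ v → l q < l v := fun q hq hne =>
    lt_trans (hl1 q (subset_convexHull ℝ _ ⟨hq, hne⟩)) hl2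
  have hle : ∀ q ∈ S, l q ≤ l v := fun q hq => by
    by_cases h : q = v
    · rw [h]
    · exact (hlt q hq h).le
  have hexp := exposed_of_functional S l (l v) hle ⟨v, hvS, rfl⟩
  have hsub : {x ∈ convexHull ℝ S | l x = l v} ∩ extremePoints ℝ (convexHull ℝ S) ⊆ {v} := by
    rintro x ⟨⟨_, hx2⟩, hx3⟩
    by_contra hne
    exact absurd hx2 (hlt x (extremePoints_convexHull_subset hx3) hne).ne
  have hfin : ({x ∈ convexHull ℝ S | l x = l v} ∩ extremePoints ℝ (convexHull ℝ S)).Finite :=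
    (finite_singleton v).subset hsub
  have h := exposed_eq_hull (hS.isCompact_convexHull ℝ) (convex_convexHull ℝ S) hexp hfin
  have hF : {x ∈ convexHull ℝ S | l x = l v} = {v} := by
    apply Subset.antisymm
    · rw [h]
      refine (convexHull_mono hsub).trans ?_
      rw [convexHull_singleton]
    · rintro _ rfl
      exact ⟨subset_convexHull ℝ S hvS, rfl⟩
  rwa [hF] at hexp

theorem exists_vertex {S : Set E3} (hS : S.Finite) {G : Set E3}
    (hG : IsExposed ℝ (convexHull ℝ S) G) (hne : G.Nonempty) :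
    ∃ v ∈ extremePoints ℝ (convexHull ℝ S), v ∈ G := by
  have hc := hG.isCompact (hS.isCompact_convexHull ℝ)
  obtain ⟨v, hv⟩ := hc.extremePoints_nonempty hne
  rw [hG.isExtreme.extremePoints_eq] at hv
  exact ⟨v, hv.2, hv.1⟩

theorem isExposed_empty' (P : Set E3) : IsExposed ℝ P ∅ := isExposed_empty

/-- image of a vertex under an isomorphism of the face lattices -/
theorem image_vertex {S T : Set E3} (hS : S.Finite) (hT : T.Finite)
    (e : FaceLattice (convexHull ℝ S) ≃o FaceLattice (convexHull ℝ T)) (v : E3)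
    (hv : v ∈ extremePoints ℝ (convexHull ℝ S)) :
    ∃ u ∈ extremePoints ℝ (convexHull ℝ T),
      (e ⟨{v}, isExposed_vertex hS hv⟩).1 = {u} := by
  have hbot : ∀ F : FaceLattice (convexHull ℝ S), (e F).1 = ∅ → F.1 = ∅ := by
    intro F hF
    have h1 : e F ≤ e ⟨∅, isExposed_empty⟩ := by
      show (e F).1 ⊆ _
      rw [hF]
      exact empty_subset _
    have h2 := e.le_iff_le.1 h1
    exact subset_empty_iff.1 h2
  have hne : (e ⟨{v}, isExposed_vertex hS hv⟩).1.Nonempty := by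
    rw [nonempty_iff_ne_empty]
    intro h
    exact (singleton_nonempty v).ne_empty (hbot _ h)
  obtain ⟨u, hu, huG⟩ := exists_vertex hT (e ⟨{v}, isExposed_vertex hS hv⟩).2 hne
  refine ⟨u, hu, ?_⟩
  have h1 : (⟨{u}, isExposed_vertex hT hu⟩ : FaceLattice (convexHull ℝ T)) ≤
      e ⟨{v}, isExposed_vertex hS hv⟩ := by
    show ({u} : Set E3) ⊆ _
    exact singleton_subset_iff.2 huG
  have h2 : e.symm ⟨{u}, isExposed_vertex hT hu⟩ ≤ ⟨{v}, isExposed_vertex hS hv⟩ := by
    rw [← e.le_iff_le, e.apply_symm_apply]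
    exact h1
  have h3 : (e.symm ⟨{u}, isExposed_vertex hT hu⟩).1 ⊆ {v} := h2
  have h4 : (e.symm ⟨{u}, isExposed_vertex hT hu⟩).1.Nonempty := by
    rw [nonempty_iff_ne_empty]
    intro h
    have h5 : e.symm ⟨{u}, isExposed_vertex hT hu⟩ ≤ e.symm ⟨∅, isExposed_empty⟩ := by
      show (e.symm ⟨{u}, isExposed_vertex hT hu⟩).1 ⊆ _
      rw [h]
      exact empty_subset _
    have h6 : (({u} : Set E3)) ⊆ ∅ := e.symm.le_iff_le.1 h5
    exact (singleton_nonempty u).ne_empty (subset_empty_iff.1 h6)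
  have h5 : (e.symm ⟨{u}, isExposed_vertex hT hu⟩).1 = {v} := by
    rcases subset_singleton_iff_eq.1 h3 with h | h
    · exact absurd h (nonempty_iff_ne_empty.1 h4)
    · exact h
  have h6 : e.symm ⟨{u}, isExposed_vertex hT hu⟩ = ⟨{v}, isExposed_vertex hS hv⟩ :=
    Subtype.ext h5
  have h7 : e ⟨{v}, isExposed_vertex hS hv⟩ = ⟨{u}, isExposed_vertex hT hu⟩ := by
    rw [← h6, e.apply_symm_apply]
  exact congrArg Subtype.val h7

/-- an isomorphism of the face lattices comes from a bijection of the vertices -/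
theorem exists_vertexMap {S T : Set E3} (hS : S.Finite) (hT : T.Finite)
    (e : FaceLattice (convexHull ℝ S) ≃o FaceLattice (convexHull ℝ T)) :
    ∃ f : E3 → E3,
      BijOn f (extremePoints ℝ (convexHull ℝ S)) (extremePoints ℝ (convexHull ℝ T)) ∧
      ∀ A : Set E3, A ⊆ extremePoints ℝ (convexHull ℝ S) →
        ((∃ F : Set E3, IsExposed ℝ (convexHull ℝ S) F ∧ F.Nonempty ∧
            A = F ∩ extremePoints ℝ (convexHull ℝ S)) ↔
         (∃ G : Set E3, IsExposed ℝ (convexHull ℝ T) G ∧ G.Nonempty ∧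
            f '' A = G ∩ extremePoints ℝ (convexHull ℝ T))) := by
  classical
  choose! f hf1 hf2 using image_vertex hS hT e
  have hinj : InjOn f (extremePoints ℝ (convexHull ℝ S)) := by
    intro v hv v' hv' h
    have h1 : e ⟨{v}, isExposed_vertex hS hv⟩ = e ⟨{v'}, isExposed_vertex hS hv'⟩ :=
      Subtype.ext (by rw [hf2 v hv, hf2 v' hv', h])
    have h2 := congrArg Subtype.val (e.injective h1)
    exact singleton_injective h2
  have hsurj : SurjOn f (extremePoints ℝ (convexHull ℝ S)) (extremePoints ℝ (convexHull ℝ T)) := by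
    intro u hu
    obtain ⟨v, hv, hvu⟩ := image_vertex hT hS e.symm u hu
    refine ⟨v, hv, ?_⟩
    have h1 : e.symm ⟨{u}, isExposed_vertex hT hu⟩ = ⟨{v}, isExposed_vertex hS hv⟩ :=
      Subtype.ext hvu
    have h2 : e ⟨{v}, isExposed_vertex hS hv⟩ = ⟨{u}, isExposed_vertex hT hu⟩ := by
      rw [← h1, e.apply_symm_apply]
    have h3 := congrArg Subtype.val h2
    rw [hf2 v hv] at h3
    exact singleton_injective h3
  have hbij : BijOn f (extremePoints ℝ (convexHull ℝ S)) (extremePoints ℝ (convexHull ℝ T)) :=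
    ⟨fun v hv => hf1 v hv, hinj, hsurj⟩
  have hmem : ∀ (F : FaceLattice (convexHull ℝ S)) (v : E3),
      v ∈ extremePoints ℝ (convexHull ℝ S) → (v ∈ F.1 ↔ f v ∈ (e F).1) := by
    intro F v hv
    have h1 : v ∈ F.1 ↔ (⟨{v}, isExposed_vertex hS hv⟩ : FaceLattice (convexHull ℝ S)) ≤ F := by
      show _ ↔ ({v} : Set E3) ⊆ F.1
      exact singleton_subset_iff.symm
    rw [h1, ← e.le_iff_le]
    show (e ⟨{v}, isExposed_vertex hS hv⟩).1 ⊆ (e F).1 ↔ _
    rw [hf2 v hv]
    exact singleton_subset_iff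
  refine ⟨f, hbij, fun A hA => ⟨?_, ?_⟩⟩
  · rintro ⟨F, hF, hFne, rfl⟩
    obtain ⟨v, hv, hvF⟩ := exists_vertex hS hF hFne
    refine ⟨(e ⟨F, hF⟩).1, (e ⟨F, hF⟩).2, ⟨f v, (hmem ⟨F, hF⟩ v hv).1 hvF⟩, ?_⟩
    ext u
    constructor
    · rintro ⟨w, ⟨hw1, hw2⟩, rfl⟩
      exact ⟨(hmem ⟨F, hF⟩ w hw2).1 hw1, hf1 w hw2⟩
    · rintro ⟨hu1, hu2⟩
      obtain ⟨w, hw, rfl⟩ := hsurj hu2
      exact ⟨w, ⟨(hmem ⟨F, hF⟩ w hw).2 hu1, hw⟩, rfl⟩
  · rintro ⟨G, hG, hGne, hGA⟩
    obtain ⟨F, hF⟩ : ∃ F, e F = ⟨G, hG⟩ := ⟨e.symm ⟨G, hG⟩, e.apply_symm_apply _⟩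
    have hFG : (e F).1 = G := congrArg Subtype.val hF
    have hAF : A = F.1 ∩ extremePoints ℝ (convexHull ℝ S) := by
      ext v
      constructor
      · intro hv
        have h1 : f v ∈ G ∩ extremePoints ℝ (convexHull ℝ T) := by
          rw [← hGA]; exact ⟨v, hv, rfl⟩
        exact ⟨(hmem F v (hA hv)).2 (by rw [hFG]; exact h1.1), hA hv⟩
      · rintro ⟨hv1, hv2⟩
        have h1 : f v ∈ f '' A := by
          rw [hGA]
          exact ⟨by rw [← hFG]; exact (hmem F v hv2).1 hv1, hf1 v hv2⟩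
        obtain ⟨w, hw, hwv⟩ := h1
        rw [← hinj (hA hw) hv2 hwv]
        exact hw
    refine ⟨F.1, F.2, ?_, hAF⟩
    obtain ⟨u, hu, huG⟩ := exists_vertex hT hG hGne
    have h1 : u ∈ f '' A := by rw [hGA]; exact ⟨huG, hu⟩
    obtain ⟨v, hv, -⟩ := h1
    rw [hAF] at hv
    exact ⟨v, hv.1⟩

end Pool.Agent.Helper65.KP
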