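import Mathlib
import Pool.Agent.Helper65.KP.Vertex

set_option autoImplicit false

namespace Pool.Agent.Helper65.KP

open Set MeasureTheory Pool.Agent.Helper53.Koebe

open scoped RealInnerProductSpace

/-- if the line through `v, w` does not meet the open unit ball and `v` is on the sphere -/
theorem inner_eq_one {v w : E3} (hv : ‖v‖ = 1)
    (h : ∀ q ∈ affineSpan ℝ ({v, w} : Set E3), 1 ≤ ‖q‖) : ⟪v, w⟫ = 1 := by
  obtain ⟨d, hd⟩ : ∃ d, d = w - v := ⟨_, rfl⟩
  have hvv : ⟪v, v⟫ = 1 := by rw [real_inner_self_eq_norm_sq, hv]; norm_num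
  have hw : w = v + d := by rw [hd]; abel
  have hline : ∀ s : ℝ, 0 ≤ 2 * s * ⟪v, d⟫ + s ^ 2 * ⟪d, d⟫ := by
    intro s
    have hmem : v + s • d ∈ affineSpan ℝ ({v, w} : Set E3) := by
      have : v + s • d = AffineMap.lineMap v w s := by
        rw [AffineMap.lineMap_apply_module', hd]; abel
      rw [this]
      exact AffineMap.lineMap_mem_affineSpan_pair _ _ _
    have h1 := h _ hmem
    have h2 : (1 : ℝ) ≤ ⟪v + s • d, v + s • d⟫ := by
      rw [real_inner_self_eq_norm_sq]; nlinarith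
    rw [inner_add_left, inner_add_right, inner_add_right, inner_smul_left, inner_smul_right,
      inner_smul_left, inner_smul_right, hvv, real_inner_comm v d] at h2
    simp only [conj_trivial] at h2
    linarith
  have hvd : ⟪v, d⟫ = 0 := by
    by_contra hne
    have hdd : 0 < ⟪d, d⟫ := by
      rw [real_inner_self_pos]
      rintro rfl
      exact hne (inner_zero_right _)
    have h3 := hline (-(⟪v, d⟫ / ⟪d, d⟫))
    have h4 : 2 * (-(⟪v, d⟫ / ⟪d, d⟫)) * ⟪v, d⟫ + (-(⟪v, d⟫ / ⟪d, d⟫)) ^ 2 * ⟪d, d⟫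
        = -(⟪v, d⟫ ^ 2 / ⟪d, d⟫) := by
      field_simp; ring
    have h5 : 0 < ⟪v, d⟫ ^ 2 / ⟪d, d⟫ := by positivity
    linarith
  rw [hw, inner_add_right, hvv, hvd, add_zero]

/-- three directions which span -/
theorem not_all_one (u a b c : E3) (l1 l2 : StrongDual ℝ E3)
    (h1a : l1 u = l1 a) (h1b : l1 u = l1 b) (h1c : l1 c < l1 u)
    (h2a : l2 u = l2 a) (h2b : l2 b < l2 u) (hne : u ≠ a)
    (hu : ⟪u, u⟫ = 1) (ha : ⟪u, a⟫ = 1) (hb : ⟪u, b⟫ = 1) (hc : ⟪u, c⟫ = 1) : False := by
  have hli : LinearIndependent ℝ ![a - u, b - u, c - u] := by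
    rw [Fintype.linearIndependent_iff]
    intro g hg
    rw [Fin.sum_univ_three] at hg
    simp only [Matrix.cons_val_zero, Matrix.cons_val_one, Matrix.cons_val] at hg
    have e1 := congrArg l1 hg
    simp only [map_add, map_smul, map_sub, smul_eq_mul, map_zero] at e1
    have g2 : g 2 = 0 := by
      have h5 : g 2 * (l1 c - l1 u) = 0 := by
        rw [← h1a, ← h1b] at e1
        linear_combination e1
      rcases mul_eq_zero.1 h5 with h | h
      · exact h
      · linarith
    have e2 := congrArg l2 hg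
    simp only [map_add, map_smul, map_sub, smul_eq_mul, map_zero, g2] at e2
    have g1 : g 1 = 0 := by
      have h5 : g 1 * (l2 b - l2 u) = 0 := by
        rw [← h2a] at e2
        linear_combination e2
      rcases mul_eq_zero.1 h5 with h | h
      · exact h
      · linarith
    have g0 : g 0 = 0 := by
      rw [g1, g2] at hg
      simp only [zero_smul, add_zero, smul_eq_zero] at hg
      rcases hg with h | h
      · exact h
      · exact absurd (sub_eq_zero.1 h).symm hne
    intro i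
    fin_cases i
    · exact g0
    · exact g1
    · exact g2
  have hspan := hli.span_eq_top_of_card_eq_finrank (by simp)
  have hker : Submodule.span ℝ (range ![a - u, b - u, c - u])
      ≤ LinearMap.ker (innerSL ℝ u : E3 →ₗ[ℝ] ℝ) := by
    rw [Submodule.span_le]
    rintro _ ⟨i, rfl⟩
    fin_cases i
    · show ⟪u, a - u⟫ = 0
      rw [inner_sub_right, ha, hu, sub_self]
    · show ⟪u, b - u⟫ = 0
      rw [inner_sub_right, hb, hu, sub_self]
    · show ⟪u, c - u⟫ = 0
      rw [inner_sub_right, hc, hu, sub_self]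
  rw [hspan] at hker
  have h0 : ⟪u, u⟫ = 0 := hker (Submodule.mem_top (x := u))
  rw [hu] at h0
  exact one_ne_zero h0

theorem left_extreme {v u : E3} (hvu : v ≠ u) : v ∈ extremePoints ℝ (segment ℝ v u) := by
  by_contra h
  have hsub : extremePoints ℝ (segment ℝ v u) ⊆ {u} := by
    intro x hx
    have h1 : x ∈ ({v, u} : Set E3) := by
      rw [← convexHull_pair] at hx
      exact extremePoints_convexHull_subset hx
    rcases h1 with rfl | h1
    · exact absurd hx h
    · exact h1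
  have hcomp : IsCompact (segment ℝ v u) := by
    rw [← convexHull_pair]
    exact (toFinite ({v, u} : Set E3)).isCompact_convexHull ℝ
  have h2 := closure_convexHull_extremePoints hcomp (convex_segment v u)
  have h3 : segment ℝ v u ⊆ {u} := by
    rw [← h2]
    refine (closure_mono (convexHull_mono hsub)).trans ?_
    rw [convexHull_singleton, closure_singleton]
  exact hvu (h3 (left_mem_segment ℝ v u))

/-- tangency in the closed edge gives tangency in the open edge, for the class of the square pyramid -/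
theorem hedge_of_closed {K : Set E3} (hK : IsCompact K) (hKc : Convex ℝ K) (f : E3 → E3)
    (hf : BijOn f (extremePoints ℝ (convexHull ℝ PS)) (extremePoints ℝ K))
    (hfaces : ∀ A : Set E3, A ⊆ extremePoints ℝ (convexHull ℝ PS) →
      ((∃ F : Set E3, IsExposed ℝ (convexHull ℝ PS) F ∧ F.Nonempty ∧
          A = F ∩ extremePoints ℝ (convexHull ℝ PS)) ↔
       (∃ G : Set E3, IsExposed ℝ K G ∧ G.Nonempty ∧
          f '' A = G ∩ extremePoints ℝ K)))
    (hedge : ∀ v w : E3, v ≠ w → IsExposed ℝ K (segment ℝ v w) →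
      (∃ p ∈ segment ℝ v w, ‖p‖ = 1) ∧ ∀ q ∈ affineSpan ℝ ({v, w} : Set E3), 1 ≤ ‖q‖) :
    ∀ v w : E3, v ≠ w → IsExposed ℝ K (segment ℝ v w) →
      (∃ p ∈ openSegment ℝ v w, ‖p‖ = 1) ∧ ∀ q ∈ affineSpan ℝ ({v, w} : Set E3), 1 ≤ ‖q‖ := by
  obtain ⟨w, hw⟩ : ∃ w : Fin 5 → E3, w = fun i => f (pv i) := ⟨_, rfl⟩
  have hwinj : Function.Injective w := by
    intro i j hij
    rw [hw] at hij
    apply pv_injective
    apply hf.injOn _ _ hij
    · rw [PS_ext]; exact ⟨i, rfl⟩
    · rw [PS_ext]; exact ⟨j, rfl⟩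
  have hextK : extremePoints ℝ K = range w := by
    rw [← hf.image_eq, PS_ext, hw]
    ext x
    constructor
    · rintro ⟨_, ⟨i, rfl⟩, rfl⟩; exact ⟨i, rfl⟩
    · rintro ⟨i, rfl⟩; exact ⟨pv i, ⟨i, rfl⟩, rfl⟩
  have hface : ∀ (I : Set (Fin 5)), I.Nonempty → ∀ (a b c m : ℝ),
      (∀ i ∈ I, (![c, a, b, -a, -b] : Fin 5 → ℝ) i = m) →
      (∀ i, i ∉ I → (![c, a, b, -a, -b] : Fin 5 → ℝ) i < m) →
      ∃ G : Set E3, IsExposed ℝ K G ∧ G.Nonempty ∧ w '' I = G ∩ extremePoints ℝ K := by
    intro I hI a b c m h1 h2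
    have h3 := (hfaces (pv '' I) (by rw [PS_ext]; exact image_subset_range _ _)).1
      (S_face I hI a b c m h1 h2)
    have h4 : f '' (pv '' I) = w '' I := by rw [hw, image_image]
    rwa [h4] at h3
  have hfun : ∀ (I : Set (Fin 5)), I.Nonempty → ∀ (a b c m : ℝ),
      (∀ i ∈ I, (![c, a, b, -a, -b] : Fin 5 → ℝ) i = m) →
      (∀ i, i ∉ I → (![c, a, b, -a, -b] : Fin 5 → ℝ) i < m) →
      ∃ (l : StrongDual ℝ E3) (c : ℝ), (∀ i ∈ I, l (w i) = c) ∧ (∀ i, i ∉ I → l (w i) < c) := by
    intro I hI a b c m h1 h2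
    obtain ⟨G, hG1, hG2, hG3⟩ := hface I hI a b c m h1 h2
    exact T_fun w hwinj hextK hG1 I hI hG3
  -- the lines of the edges
  have hline : ∀ (i j : Fin 5), i ≠ j → ∀ (a b c m : ℝ),
      (∀ k ∈ ({i, j} : Set (Fin 5)), (![c, a, b, -a, -b] : Fin 5 → ℝ) k = m) →
      (∀ k, k ∉ ({i, j} : Set (Fin 5)) → (![c, a, b, -a, -b] : Fin 5 → ℝ) k < m) →
      ∀ q ∈ affineSpan ℝ ({w i, w j} : Set E3), 1 ≤ ‖q‖ := by
    intro i j hij a b c m h1 h2
    obtain ⟨G, hG1, hG2, hG3⟩ := hface {i, j} ⟨i, by simp⟩ a b c m h1 h2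
    have hfin : (G ∩ extremePoints ℝ K).Finite := by
      rw [← hG3]; exact (toFinite _)
    have hGe := exposed_eq_hull hK hKc hG1 hfin
    rw [← hG3, image_pair, convexHull_pair] at hGe
    rw [hGe] at hG1
    exact (hedge (w i) (w j) (fun h => hij (hwinj h)) hG1).2
  have E01 := hline 0 1 (by decide) 1 0 1 1
    (by intro k hk; fin_cases k <;> simp at hk ⊢) (by intro k hk; fin_cases k <;> simp at hk ⊢)
  have E02 := hline 0 2 (by decide) 0 1 1 1
    (by intro k hk; fin_cases k <;> simp at hk ⊢) (by intro k hk; fin_cases k <;> simp at hk ⊢)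
  have E03 := hline 0 3 (by decide) (-1) 0 1 1
    (by intro k hk; fin_cases k <;> simp at hk ⊢) (by intro k hk; fin_cases k <;> simp at hk ⊢)
  have E04 := hline 0 4 (by decide) 0 (-1) 1 1
    (by intro k hk; fin_cases k <;> simp at hk ⊢) (by intro k hk; fin_cases k <;> simp at hk ⊢)
  have E12 := hline 1 2 (by decide) 1 1 0 1
    (by intro k hk; fin_cases k <;> simp at hk ⊢) (by intro k hk; fin_cases k <;> simp at hk ⊢)
  have E23 := hline 2 3 (by decide) (-1) 1 0 1
    (by intro k hk; fin_cases k <;> simp at hk ⊢) (by intro k hk; fin_cases k <;> simp at hk ⊢)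
  have E34 := hline 3 4 (by decide) (-1) (-1) 0 1
    (by intro k hk; fin_cases k <;> simp at hk ⊢) (by intro k hk; fin_cases k <;> simp at hk ⊢)
  have E41 := hline 4 1 (by decide) 1 (-1) 0 1
    (by intro k hk; fin_cases k <;> simp at hk ⊢) (by intro k hk; fin_cases k <;> simp at hk ⊢)
  -- functionals: the triangles containing the apex, and edges
  obtain ⟨l012, c012, f012, g012⟩ := hfun {0, 1, 2} ⟨1, by simp⟩ 1 1 1 1
    (by intro k hk; fin_cases k <;> simp at hk ⊢) (by intro k hk; fin_cases k <;> simp at hk ⊢)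
  obtain ⟨l023, c023, f023, g023⟩ := hfun {0, 2, 3} ⟨2, by simp⟩ (-1) 1 1 1
    (by intro k hk; fin_cases k <;> simp at hk ⊢) (by intro k hk; fin_cases k <;> simp at hk ⊢)
  obtain ⟨l014, c014, f014, g014⟩ := hfun {0, 1, 4} ⟨1, by simp⟩ 1 (-1) 1 1
    (by intro k hk; fin_cases k <;> simp at hk ⊢) (by intro k hk; fin_cases k <;> simp at hk ⊢)
  obtain ⟨l01, c01, f01, g01⟩ := hfun {0, 1} ⟨1, by simp⟩ 1 0 1 1
    (by intro k hk; fin_cases k <;> simp at hk ⊢) (by intro k hk; fin_cases k <;> simp at hk ⊢)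
  obtain ⟨l12, c12, f12, g12⟩ := hfun {1, 2} ⟨1, by simp⟩ 1 1 0 1
    (by intro k hk; fin_cases k <;> simp at hk ⊢) (by intro k hk; fin_cases k <;> simp at hk ⊢)
  obtain ⟨l23, c23, f23, g23⟩ := hfun {2, 3} ⟨2, by simp⟩ (-1) 1 0 1
    (by intro k hk; fin_cases k <;> simp at hk ⊢) (by intro k hk; fin_cases k <;> simp at hk ⊢)
  obtain ⟨l14, c14, f14, g14⟩ := hfun {1, 4} ⟨1, by simp⟩ 1 (-1) 0 1
    (by intro k hk; fin_cases k <;> simp at hk ⊢) (by intro k hk; fin_cases k <;> simp at hk ⊢)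
  have hcomm : ∀ i j : Fin 5, (∀ q ∈ affineSpan ℝ ({w i, w j} : Set E3), 1 ≤ ‖q‖) →
      ∀ q ∈ affineSpan ℝ ({w j, w i} : Set E3), 1 ≤ ‖q‖ := by
    intro i j h
    rwa [pair_comm (w j) (w i)]
  have hno : ∀ i : Fin 5, ‖w i‖ ≠ 1 := by
    intro i hi
    have hii : ⟪w i, w i⟫ = 1 := by rw [real_inner_self_eq_norm_sq, hi]; norm_num
    have hni : ∀ j : Fin 5, i ≠ j → w i ≠ w j := fun j hij h => hij (hwinj h)
    fin_cases i
    · exact not_all_one (w 0) (w 1) (w 2) (w 4) l012 l01
        (by rw [f012 0 (by simp), f012 1 (by simp)]) (by rw [f012 0 (by simp), f012 2 (by simp)])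
        (by rw [f012 0 (by simp)]; exact g012 4 (by simp))
        (by rw [f01 0 (by simp), f01 1 (by simp)])
        (by rw [f01 0 (by simp)]; exact g01 2 (by simp))
        (hni 1 (by decide)) hii (inner_eq_one hi E01) (inner_eq_one hi E02) (inner_eq_one hi E04)
    · exact not_all_one (w 1) (w 2) (w 0) (w 4) l012 l12
        (by rw [f012 1 (by simp), f012 2 (by simp)]) (by rw [f012 1 (by simp), f012 0 (by simp)])
        (by rw [f012 1 (by simp)]; exact g012 4 (by simp))
        (by rw [f12 1 (by simp), f12 2 (by simp)])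
        (by rw [f12 1 (by simp)]; exact g12 0 (by simp))
        (hni 2 (by decide)) hii (inner_eq_one hi E12) (inner_eq_one hi (hcomm _ _ E01))
        (inner_eq_one hi (hcomm _ _ E41))
    · exact not_all_one (w 2) (w 1) (w 0) (w 3) l012 l12
        (by rw [f012 2 (by simp), f012 1 (by simp)]) (by rw [f012 2 (by simp), f012 0 (by simp)])
        (by rw [f012 2 (by simp)]; exact g012 3 (by simp))
        (by rw [f12 2 (by simp), f12 1 (by simp)])
        (by rw [f12 2 (by simp)]; exact g12 0 (by simp))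
        (hni 1 (by decide)) hii (inner_eq_one hi (hcomm _ _ E12))
        (inner_eq_one hi (hcomm _ _ E02)) (inner_eq_one hi E23)
    · exact not_all_one (w 3) (w 2) (w 0) (w 4) l023 l23
        (by rw [f023 3 (by simp), f023 2 (by simp)]) (by rw [f023 3 (by simp), f023 0 (by simp)])
        (by rw [f023 3 (by simp)]; exact g023 4 (by simp))
        (by rw [f23 3 (by simp), f23 2 (by simp)])
        (by rw [f23 3 (by simp)]; exact g23 0 (by simp))
        (hni 2 (by decide)) hii (inner_eq_one hi (hcomm _ _ E23))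
        (inner_eq_one hi (hcomm _ _ E03)) (inner_eq_one hi E34)
    · exact not_all_one (w 4) (w 1) (w 0) (w 3) l014 l14
        (by rw [f014 4 (by simp), f014 1 (by simp)]) (by rw [f014 4 (by simp), f014 0 (by simp)])
        (by rw [f014 4 (by simp)]; exact g014 3 (by simp))
        (by rw [f14 4 (by simp), f14 1 (by simp)])
        (by rw [f14 4 (by simp)]; exact g14 0 (by simp))
        (hni 1 (by decide)) hii (inner_eq_one hi E41)
        (inner_eq_one hi (hcomm _ _ E04)) (inner_eq_one hi (hcomm _ _ E34))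
  intro v u hvu hexp
  obtain ⟨⟨p, hp, hp1⟩, h2⟩ := hedge v u hvu hexp
  refine ⟨⟨p, ?_, hp1⟩, h2⟩
  have hext : ∀ x ∈ extremePoints ℝ (segment ℝ v u), ‖x‖ ≠ 1 := by
    intro x hx
    rw [hexp.isExtreme.extremePoints_eq] at hx
    have h3 := hx.2
    rw [hextK] at h3
    obtain ⟨i, rfl⟩ := h3
    exact hno i
  rw [← insert_endpoints_openSegment] at hp
  rcases hp with rfl | rfl | hp
  · exact absurd hp1 (hext _ (left_extreme hvu))
  · refine absurd hp1 (hext _ ?_)
    rw [segment_symm]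
    exact left_extreme hvu.symm
  · exact hp

end Pool.Agent.Helper65.KP
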