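import Mathlib
import Pool.Agent.Helper65.KP.Tangent

set_option autoImplicit false

namespace Pool.Agent.Helper65.KP

open Set MeasureTheory Pool.Agent.Helper53.Koebe

open scoped RealInnerProductSpace

/-! ### images of faces under a linear isomorphism -/

theorem exposed_image (A : E3 ≃L[ℝ] E3) {K F : Set E3} (h : IsExposed ℝ K F) :
    IsExposed ℝ (A '' K) (A '' F) := by
  intro hne
  obtain ⟨l, hl⟩ := h (image_nonempty.1 hne)
  refine ⟨l.comp (A.symm : E3 →L[ℝ] E3), ?_⟩
  ext x
  constructor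
  · rintro ⟨y, hy, rfl⟩
    rw [hl] at hy
    refine ⟨⟨y, hy.1, rfl⟩, ?_⟩
    rintro _ ⟨z, hz, rfl⟩
    simpa using hy.2 z hz
  · rintro ⟨⟨y, hy, rfl⟩, h2⟩
    refine ⟨y, ?_, rfl⟩
    rw [hl]
    refine ⟨hy, fun z hz => ?_⟩
    simpa using h2 (A z) ⟨z, hz, rfl⟩

theorem exposed_preimage (A : E3 ≃L[ℝ] E3) {K G : Set E3} (h : IsExposed ℝ (A '' K) G) :
    IsExposed ℝ K (A ⁻¹' G) := by
  have h1 := exposed_image A.symm h
  have h2 : A.symm '' (A '' K) = K := by rw [image_image]; simp
  have h3 : A.symm '' G = A ⁻¹' G := A.symm.image_eq_preimage_symm G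
  rwa [h2, h3] at h1

/-- a linear isomorphism induces an isomorphism of the face lattices -/
def imageIso (A : E3 ≃L[ℝ] E3) (K : Set E3) : FaceLattice K ≃o FaceLattice (A '' K) where
  toFun F := ⟨A '' F.1, exposed_image A F.2⟩
  invFun G := ⟨A ⁻¹' G.1, exposed_preimage A G.2⟩
  left_inv F := Subtype.ext (preimage_image_eq _ A.injective)
  right_inv G := Subtype.ext (image_preimage_eq _ A.surjective)
  map_rel_iff' := by
    intro F G
    show A '' F.1 ⊆ A '' G.1 ↔ F.1 ⊆ G.1
    exact image_subset_image_iff A.injective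

theorem sqrt2_ne : (√2 : ℝ) ≠ 0 := by positivity

/-- multiplication by the square root of 2 -/
noncomputable def scale : E3 ≃L[ℝ] E3 :=
  (LinearEquiv.smulOfNeZero ℝ E3 (√2) sqrt2_ne).toContinuousLinearEquiv

theorem scale_apply (x : E3) : scale x = √2 • x := rfl

noncomputable def kv (i : Fin 5) : E3 := √2 • pv i

theorem range_kv : (range kv) =
    ({!₂[0, 0, √2], !₂[√2, 0, 0], !₂[0, √2, 0], !₂[-√2, 0, 0], !₂[0, -√2, 0]} : Set E3) := by
  have h0 : kv 0 = !₂[0, 0, √2] := by ext i; fin_cases i <;> simp [kv, pv]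
  have h1 : kv 1 = !₂[√2, 0, 0] := by ext i; fin_cases i <;> simp [kv, pv]
  have h2 : kv 2 = !₂[0, √2, 0] := by ext i; fin_cases i <;> simp [kv, pv]
  have h3 : kv 3 = !₂[-√2, 0, 0] := by ext i; fin_cases i <;> simp [kv, pv]
  have h4 : kv 4 = !₂[0, -√2, 0] := by ext i; fin_cases i <;> simp [kv, pv]
  rw [← h0, ← h1, ← h2, ← h3, ← h4]
  ext x
  constructor
  · rintro ⟨i, rfl⟩
    fin_cases i <;> simp
  · rintro (rfl | rfl | rfl | rfl | rfl)
    exacts [⟨0, rfl⟩, ⟨1, rfl⟩, ⟨2, rfl⟩, ⟨3, rfl⟩, ⟨4, rfl⟩]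

theorem pyramid_eq : pyramid = convexHull ℝ (range kv) := by
  rw [range_kv]; rfl

theorem pyramid_image : pyramid = scale '' (convexHull ℝ PS) := by
  have h1 : scale '' (convexHull ℝ PS) = convexHull ℝ (scale '' PS) :=
    (scale : E3 →L[ℝ] E3).toLinearMap.image_convexHull PS
  rw [h1, pyramid_eq]
  congr 1
  unfold PS
  rw [← range_comp]
  rfl

theorem pyramid_polyhedron : IsPolyhedron pyramid := by
  refine ⟨⟨_, finite_range kv, pyramid_eq⟩, ?_⟩
  rw [pyramid_image]
  have h := scale.toHomeomorph.image_interior (convexHull ℝ PS)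
  have h2 : interior (scale '' (convexHull ℝ PS)) = scale '' interior (convexHull ℝ PS) := h.symm
  rw [h2]
  exact PS_interior.image _

/-! ### the pyramid is a Koebe polyhedron -/

theorem pv_self (i : Fin 5) : ⟪pv i, pv i⟫ = 1 := by
  rw [PiLp.inner_apply, Fin.sum_univ_three]
  fin_cases i <;> simp [pv]

theorem pv_orth (i j : Fin 5) (hij : i ≠ j) :
    ⟪pv i, pv j⟫ = 0 ∨ (pv j = -pv i ∧ i ≠ 0) := by
  fin_cases i <;> fin_cases j <;> simp at hij <;>
    first
    | (left; simp [pv, PiLp.inner_apply, Fin.sum_univ_three]; done)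
    | (right; refine ⟨?_, by decide⟩; ext k; fin_cases k <;> simp [pv])

theorem kv_self (i : Fin 5) : ⟪kv i, kv i⟫ = 2 := by
  unfold kv
  rw [inner_smul_left, inner_smul_right, pv_self]
  simp

/-- a segment with orthogonal end points of length `√2` is tangent to the unit sphere -/
theorem tangent_of_orth {v w : E3} (hv : ⟪v, v⟫ = 2) (hw : ⟪w, w⟫ = 2) (hvw : ⟪v, w⟫ = 0) :
    IsTangent (segment ℝ v w) := by
  constructor
  · refine ⟨(1 / 2 : ℝ) • v + (1 / 2 : ℝ) • w,
      ⟨1 / 2, 1 / 2, by norm_num, by norm_num, by norm_num, rfl⟩, ?_⟩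
    have h : ‖(1 / 2 : ℝ) • v + (1 / 2 : ℝ) • w‖ ^ 2 = 1 := by
      rw [← real_inner_self_eq_norm_sq, inner_add_left, inner_add_right, inner_add_right]
      simp only [inner_smul_left, inner_smul_right, real_inner_comm v w, hv, hw, hvw,
        conj_trivial]
      norm_num
    have h0 := norm_nonneg ((1 / 2 : ℝ) • v + (1 / 2 : ℝ) • w)
    nlinarith
  · intro q hq
    have h1 : affineSpan ℝ (segment ℝ v w) = affineSpan ℝ {v, w} := by
      rw [← convexHull_pair, affineSpan_convexHull]
    rw [h1] at hq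
    obtain ⟨t, rfl⟩ := mem_affineSpan_pair_iff_exists_lineMap_eq.1 hq
    have h : ‖AffineMap.lineMap v w t‖ ^ 2 = 1 + (1 - 2 * t) ^ 2 := by
      rw [AffineMap.lineMap_apply_module, ← real_inner_self_eq_norm_sq, inner_add_left,
        inner_add_right, inner_add_right]
      simp only [inner_smul_left, inner_smul_right, real_inner_comm v w, hv, hw, hvw,
        conj_trivial]
      ring
    have h0 := norm_nonneg (AffineMap.lineMap v w t : E3)
    nlinarith [sq_nonneg (1 - 2 * t)]

/-- three different extreme points are not on a line -/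
theorem not_three {P F : Set E3} (hF : F ⊆ P) (hd : Module.finrank ℝ (vectorSpan ℝ F) = 1)
    {a b c : E3} (ha : a ∈ F) (hb : b ∈ F) (hc : c ∈ F)
    (ea : a ∈ extremePoints ℝ P) (eb : b ∈ extremePoints ℝ P) (ec : c ∈ extremePoints ℝ P)
    (hab : a ≠ b) (hac : a ≠ c) (hbc : b ≠ c) : False := by
  have hcol : Collinear ℝ ({a, b, c} : Set E3) := by
    have h1 : Collinear ℝ F := by
      rw [collinear_iff_finrank_le_one]
      exact hd.le
    apply h1.subset
    intro x hx
    rcases hx with rfl | rfl | rfl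
    exacts [ha, hb, hc]
  have key : ∀ x y z : E3, x ∈ F → z ∈ F → y ∈ extremePoints ℝ P → Wbtw ℝ x y z →
      x ≠ y → z ≠ y → False := by
    intro x y z hx hz hy h hxy hzy
    have h1 : y ∈ segment ℝ x z := by
      obtain ⟨t, ht, rfl⟩ := h
      rw [segment_eq_image_lineMap]
      exact ⟨t, ht, rfl⟩
    rcases (mem_extremePoints_iff_forall_segment.1 hy).2 x (hF hx) z (hF hz) h1 with h | h
    · exact hxy h
    · exact hzy h
  rcases hcol.wbtw_or_wbtw_or_wbtw with h | h | h
  · exact key a b c ha hc eb h hab hbc.symm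
  · exact key b c a hb ha ec h hbc hac
  · exact key c a b hc hb ea h hac.symm hab.symm

theorem pyramid_edge (F : Set E3) (hF : IsEdge pyramid F) : IsTangent F := by
  obtain ⟨hexp, hdim⟩ := hF
  have hcomp : IsCompact pyramid := by
    rw [pyramid_eq]; exact (finite_range kv).isCompact_convexHull ℝ
  have hconv : Convex ℝ pyramid := convex_convexHull ℝ _
  have hext : extremePoints ℝ pyramid ⊆ range kv := by
    rw [pyramid_eq]; exact extremePoints_convexHull_subset
  have hfin : (F ∩ extremePoints ℝ pyramid).Finite :=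
    (finite_range kv).subset (inter_subset_right.trans hext)
  have hhull := exposed_eq_hull hcomp hconv hexp hfin
  have hFsub : F ⊆ pyramid := hexp.subset
  -- two vertices
  have hne : (F ∩ extremePoints ℝ pyramid).Nonempty := by
    rw [nonempty_iff_ne_empty]
    intro h
    rw [h, convexHull_empty] at hhull
    rw [hhull, vectorSpan_empty] at hdim
    simp at hdim
  obtain ⟨v, hvF, hv⟩ := hne
  have hex2 : ∃ w ∈ F ∩ extremePoints ℝ pyramid, w ≠ v := by
    by_contra hcon
    push Not at hcon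
    have h1 : F ∩ extremePoints ℝ pyramid = {v} := by
      apply Subset.antisymm
      · intro x hx; exact hcon x hx
      · rintro _ rfl; exact ⟨hvF, hv⟩
    rw [h1, convexHull_singleton] at hhull
    rw [hhull, vectorSpan_singleton] at hdim
    simp at hdim
  obtain ⟨w, ⟨hwF, hw⟩, hwv⟩ := hex2
  have hpair : F ∩ extremePoints ℝ pyramid = {v, w} := by
    apply Subset.antisymm
    · rintro x ⟨hxF, hx⟩
      by_contra hcon
      simp only [mem_insert_iff, mem_singleton_iff, not_or] at hcon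
      exact not_three hFsub hdim hvF hwF hxF hv hw hx (Ne.symm hwv) (Ne.symm hcon.1)
        (Ne.symm hcon.2)
    · rintro x (rfl | rfl)
      exacts [⟨hvF, hv⟩, ⟨hwF, hw⟩]
  rw [hpair, convexHull_pair] at hhull
  obtain ⟨i, rfl⟩ := hext hv
  obtain ⟨j, rfl⟩ := hext hw
  have hij : i ≠ j := fun h => hwv (by rw [h])
  rcases pv_orth i j hij with h | ⟨h, hi0⟩
  · rw [hhull]
    refine tangent_of_orth (kv_self i) (kv_self j) ?_
    unfold kv
    rw [inner_smul_left, inner_smul_right, h]
    simp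
  · exfalso
    -- a base diagonal
    have hkj : kv j = -kv i := by unfold kv; rw [h, smul_neg]
    have h0 : (0 : E3) ∈ F := by
      rw [hhull, hkj]
      exact ⟨1 / 2, 1 / 2, by norm_num, by norm_num, by norm_num, by
        rw [smul_neg, add_neg_cancel]⟩
    have hother : ∃ a b : Fin 5, kv b = -kv a ∧ ⟪kv a, kv i⟫ = 0 := by
      have h12 : ⟪pv 1, pv 2⟫ = 0 := by simp [pv, PiLp.inner_apply, Fin.sum_univ_three]
      have h14 : ⟪pv 1, pv 4⟫ = 0 := by simp [pv, PiLp.inner_apply, Fin.sum_univ_three]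
      have h21 : ⟪pv 2, pv 1⟫ = 0 := by simp [pv, PiLp.inner_apply, Fin.sum_univ_three]
      have h23 : ⟪pv 2, pv 3⟫ = 0 := by simp [pv, PiLp.inner_apply, Fin.sum_univ_three]
      have e13 : kv 3 = -kv 1 := by
        unfold kv; rw [← smul_neg]; congr 1; ext k; fin_cases k <;> simp [pv]
      have e24 : kv 4 = -kv 2 := by
        unfold kv; rw [← smul_neg]; congr 1; ext k; fin_cases k <;> simp [pv]
      have hk : ∀ a b : Fin 5, ⟪pv a, pv b⟫ = 0 → ⟪kv a, kv b⟫ = 0 := by
        intro a b hab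
        unfold kv
        rw [inner_smul_left, inner_smul_right, hab]
        simp
      fin_cases i
      · exact absurd rfl hi0
      · exact ⟨2, 4, e24, hk _ _ h21⟩
      · exact ⟨1, 3, e13, hk _ _ h12⟩
      · exact ⟨2, 4, e24, hk _ _ h23⟩
      · exact ⟨1, 3, e13, hk _ _ h14⟩
    obtain ⟨a, b, hba, hai⟩ := hother
    have hmem : ∀ k, kv k ∈ pyramid := fun k => by
      rw [pyramid_eq]; exact subset_convexHull ℝ _ ⟨k, rfl⟩
    have h0seg : (0 : E3) ∈ openSegment ℝ (kv a) (kv b) :=
      ⟨1 / 2, 1 / 2, by norm_num, by norm_num, by norm_num, by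
        rw [hba, smul_neg, add_neg_cancel]⟩
    have haF : kv a ∈ F := hexp.isExtreme.2 (hmem a) (hmem b) h0 h0seg
    rw [hhull, hkj] at haF
    obtain ⟨s, t, hs, ht, hst, hsum⟩ := haF
    have h1 := congrArg (fun x => ⟪kv a, x⟫) hsum
    simp only [inner_add_right, inner_smul_right, inner_neg_right, hai, kv_self] at h1
    norm_num at h1

theorem pyramid_koebe : IsKoebe pyramid := ⟨pyramid_polyhedron, pyramid_edge⟩

/-! ### the main theorem -/

theorem main (Q : Set E3) (hQ : IsKoebe Q) (hclass : SameClass pyramid Q) : cm3 Q ≠ 0 := by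
  obtain ⟨⟨⟨T, hT, rfl⟩, hint⟩, hedge⟩ := hQ
  obtain ⟨e⟩ := hclass
  have hiso : Nonempty (FaceLattice (convexHull ℝ PS) ≃o FaceLattice (convexHull ℝ T)) := by
    rw [pyramid_image] at e
    exact ⟨(imageIso scale (convexHull ℝ PS)).trans e⟩
  obtain ⟨e'⟩ := hiso
  obtain ⟨f, hf, hfaces⟩ := exists_vertexMap PS_finite hT e'
  have hcomp : IsCompact (convexHull ℝ T) := hT.isCompact_convexHull ℝ
  have hedge1 : ∀ v w : E3, v ≠ w → IsExposed ℝ (convexHull ℝ T) (segment ℝ v w) →
      (∃ p ∈ segment ℝ v w, ‖p‖ = 1) ∧ ∀ q ∈ affineSpan ℝ ({v, w} : Set E3), 1 ≤ ‖q‖ := by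
    intro v w hvw hexp
    have h1 : affineSpan ℝ (segment ℝ v w) = affineSpan ℝ {v, w} := by
      rw [← convexHull_pair, affineSpan_convexHull]
    have hdim : Module.finrank ℝ (vectorSpan ℝ (segment ℝ v w)) = 1 := by
      rw [← direction_affineSpan, h1, direction_affineSpan, vectorSpan_pair_rev]
      exact finrank_span_singleton (by rw [vsub_eq_sub]; exact sub_ne_zero.2 (Ne.symm hvw))
    have h2 := hedge _ ⟨hexp, hdim⟩
    unfold IsTangent at h2
    rwa [h1] at h2
  have hedge2 := hedge_of_closed hcomp (convex_convexHull ℝ T) f hf hfaces hedge1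
  intro hcm
  have hvol : volume.real (convexHull ℝ T) ≠ 0 := by
    have hpos : 0 < volume (convexHull ℝ T) :=
      lt_of_lt_of_le (isOpen_interior.measure_pos volume hint) (measure_mono interior_subset)
    rw [measureReal_def, ENNReal.toReal_ne_zero]
    exact ⟨hpos.ne', hcomp.measure_lt_top.ne⟩
  have hint0 : ∫ x in convexHull ℝ T, x = 0 := by
    unfold cm3 at hcm
    rcases smul_eq_zero.1 hcm with h | h
    · exact absurd (inv_eq_zero.1 h) hvol
    · exact h
  have hTc : ((hT.toFinset : Finset E3) : Set E3) = T := hT.coe_toFinset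
  exact core hT.toFinset f (by rw [hTc]; exact hf) (by rw [hTc]; exact hfaces)
    (by rw [hTc]; exact hedge2) (by rw [hTc]; exact hint0)

end Pool.Agent.Helper65.KP
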